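import Mathlib
import Pool.Agent.LibInterm.Defs
import Pool.Agent.LibInterm.Lower

/-!
Full answer to Q1: the Hausdorff dimension of the set of the points `θ` of `ℝ^n` with
`ω_{n,d}(θ) ≥ w`, for all `0 ≤ d ≤ n - 1` and all `w > (d+1)/(n-d)`.
-/

open MeasureTheory Pool.Agent.LibInterm

namespace Pool.Agent.Results.MP_d8850a_nt.DimensionQ1

/-- For `0 ≤ d ≤ n - 1` and `w > (d+1)/(n-d)` the set of the points `θ` of `ℝ^n` with
`ω_{n,d}(θ) ≥ w` has Hausdorff dimension `d + (n+1)/(w+1)`. -/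
theorem result (n d : ℕ) (hd : d < n) (w : ℝ) (hw : ((d : ℝ) + 1) / ((n : ℝ) - d) < w) :
    dimH {θ : EuclideanSpace ℝ (Fin n) | (w : EReal) ≤ omegaExp n d θ} =
      ENNReal.ofReal (d + ((n : ℝ) + 1) / (w + 1)) := by
  obtain ⟨m, rfl⟩ : ∃ m, n = d + m := ⟨n - d, by omega⟩
  have hm : 0 < m := by omega
  have hmR : (0 : ℝ) < m := by exact_mod_cast hm
  have hd0 : (0 : ℝ) ≤ d := Nat.cast_nonneg d
  have hw' : ((d : ℝ) + 1) / m < w := by
    have h1 : ((d + m : ℕ) : ℝ) - d = m := by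
      push_cast
      ring
    rw [h1] at hw
    exact hw
  have hw0 : 0 < w := lt_trans (by positivity) hw'
  have hcast : ((d + m : ℕ) : ℝ) = (d : ℝ) + m := by push_cast; ring
  apply le_antisymm
  · apply dimH_le
    intro t ht
    by_contra hcon
    rw [not_le] at hcon
    have h1 : (d : ℝ) + (((d + m : ℕ) : ℝ) + 1) / (w + 1) < (t : ℝ) := by
      have h2 : ENNReal.ofReal (d + (((d + m : ℕ) : ℝ) + 1) / (w + 1)) < ENNReal.ofReal t := by
        rw [ENNReal.ofReal_coe_nnreal]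
        exact hcon
      exact (ENNReal.ofReal_lt_ofReal_iff_of_nonneg (by positivity)).1 h2
    have h3 := upper_null (n := d + m) (d := d) (w := w) (s := (t : ℝ)) (by linarith) h1
    rw [ht] at h3
    exact ENNReal.top_ne_zero h3
  · have h1 := lower_dim hm hw'
    rw [hcast]
    exact h1

end Pool.Agent.Results.MP_d8850a_nt.DimensionQ1
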