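import Mathlib
import Pool.Agent.LibInterm.Defs
import Pool.Agent.LibVer4.D2

/-!
Q2 for the exponents larger than `d + 1`: for all `n ≥ 2`, `0 ≤ d ≤ n - 2` and all `w > d + 1` the
set of the real numbers `ξ` with `w_{n,d}(ξ) ≥ w` has Hausdorff dimension `(d+2)/((n-d)(w+1))`.
-/

open MeasureTheory Pool.Agent.LibInterm

namespace Pool.Agent.Results.MP_d8850a_nt.VeroneseLargeExponents

/-- `w_{n,d}(ξ) = ω_{n,d}(ξ, ξ², …, ξⁿ)`. -/
noncomputable def wExp (n d : ℕ) (ξ : ℝ) : EReal :=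
  omegaExp n d (WithLp.toLp 2 (fun i : Fin n => ξ ^ ((i : ℕ) + 1)))

/-- For `0 ≤ d ≤ n - 2` and `w > d + 1` the set of the real numbers `ξ` with `w_{n,d}(ξ) ≥ w` has
Hausdorff dimension `(d+2)/((n-d)(w+1))`. -/
theorem result (n d : ℕ) (hd : d + 2 ≤ n) (w : ℝ) (hw : (d : ℝ) + 1 < w) :
    dimH {ξ : ℝ | (w : EReal) ≤ wExp n d ξ} =
      ENNReal.ofReal (((d : ℝ) + 2) / (((n : ℝ) - d) * (w + 1))) := by
  obtain ⟨e, he, hn⟩ : ∃ e, 1 ≤ e ∧ n = d + e + 1 := ⟨n - d - 1, by omega, by omega⟩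
  have h1 := Ver4.dimension2 hn he w hw
  have h2 : (n : ℝ) - d = (e : ℝ) + 1 := by
    rw [hn]
    push_cast
    ring
  rw [h2]
  exact h1

end Pool.Agent.Results.MP_d8850a_nt.VeroneseLargeExponents
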